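import Pool.Agent.Lib_MP_f4dda6_al.PingPong

set_option autoImplicit false

namespace Pool.Agent.Results.MP_f4dda6_al.FarCayleyBalls

open unitInterval Pointwise Pool.Agent.LibMPf4dda6al

/-- The pointwise stabiliser of a set of points. -/
def stab (P : Set I) : Subgroup F where
  carrier := {g | ∀ p ∈ P, act g p = p}
  mul_mem' := by
    intro a b ha hb p hp
    rw [act_mul, hb p hp, ha p hp]
  one_mem' := by intro p _; rfl
  inv_mem' := by
    intro a ha p hp
    have := ha p hp
    nth_rewrite 1 [← this]
    exact act_inv_act a p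

/-- half -/
noncomputable def half : I := ⟨1 / 2, by norm_num, by norm_num⟩

theorem act_lt_one (g : F) : act g half < 1 := by
  have h1 : act g 1 = 1 := g.1.map_top
  rw [← h1, act_lt]
  show (1 / 2 : ℝ) < 1
  norm_num

theorem finite_pow {T : Set F} (hT : T.Finite) (n : ℕ) : (T ^ n).Finite := by
  induction n with
  | zero => simp
  | succ n ih => rw [pow_succ]; exact ih.mul hT

theorem exists_bound (S : Finset F) (R : ℕ) :
    ∃ τ : I, τ < 1 ∧ ∀ g ∈ (gens (S : Set F)) ^ R, act g half ≤ τ := by
  have hfin : (gens (S : Set F)).Finite := by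
    unfold gens
    exact ((S.finite_toSet.union S.finite_toSet.inv)).union (Set.finite_singleton 1)
  have hfin2 : ((gens (S : Set F)) ^ R).Finite := finite_pow hfin R
  have hne : ((gens (S : Set F)) ^ R).Nonempty := ⟨1, by
    have := pow_mono (S : Set F) (Nat.zero_le R)
    exact this (by simp)⟩
  obtain ⟨g₀, hg₀, hmax⟩ := Set.exists_max_image _ (fun g => act g half) hfin2 hne
  exact ⟨act g₀ half, act_lt_one g₀, fun g hg => hmax g hg⟩

/-- a dense sequence in `[0,1]` -/
noncomputable def d : ℕ → I := TopologicalSpace.denseSeq I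

theorem exists_moved (p : F) (hp : p ≠ 1) : ∃ i, act p (d i) ≠ d i := by
  have hcont : Continuous (act p) := p.1.continuous
  have hopen : IsOpen {t : I | act p t ≠ t} := isOpen_ne_fun hcont continuous_id
  have hne : {t : I | act p t ≠ t}.Nonempty := by
    by_contra hcon
    rw [Set.not_nonempty_iff_eq_empty] at hcon
    apply hp
    apply Subtype.ext
    apply OrderIso.ext
    funext t
    by_contra ht
    have : t ∈ {t : I | act p t ≠ t} := ht
    rw [hcon] at this
    exact this
  obtain ⟨_, h1, ⟨i, rfl⟩⟩ := (TopologicalSpace.denseRange_denseSeq I).inter_open_nonempty _ hopen hne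
  exact ⟨i, h1⟩

theorem exists_shift (J : ℕ) (τ : I) (hτ : τ < 1) :
    ∃ m : ℕ, ∀ i < J, 0 < d i → τ < act (xr ^ m) (d i) := by
  have h : ∀ i ∈ Finset.range J, ∀ᶠ m : ℕ in Filter.atTop, 0 < d i → τ < act (xr ^ m) (d i) := by
    intro i _
    by_cases hi : 0 < d i
    · filter_upwards [xr_push (d i) hi τ hτ] with m hm _
      exact hm
    · exact Filter.Eventually.of_forall (fun m h => absurd h hi)
  have h2 := (Finset.eventually_all (Finset.range J)).mpr h
  obtain ⟨m, hm⟩ := h2.exists
  exact ⟨m, fun i hi => hm i (Finset.mem_range.mpr hi)⟩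

theorem sq_lt_two_pow (n : ℕ) (h : 5 ≤ n) : n * n < 2 ^ n := by
  induction n, h using Nat.le_induction with
  | base => norm_num
  | succ n hn ih =>
    rw [pow_succ]
    nlinarith

/-- The radii used in the construction. -/
def rad (f : ℕ → ℕ) (J : ℕ) : ℕ := J * ∑ i ∈ Finset.range (J * J + 1), f i

theorem rad_mono (f : ℕ → ℕ) {i j : ℕ} (h : i ≤ j) : rad f i ≤ rad f j := by
  unfold rad
  apply Nat.mul_le_mul h
  apply Finset.sum_le_sum_of_subset
  apply Finset.range_mono
  have := Nat.mul_le_mul h h
  omega

theorem le_rad (f : ℕ → ℕ) (n K J : ℕ) (h1 : n ≤ J * J) (h2 : K ≤ J) : K * f n ≤ rad f J := by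
  unfold rad
  apply Nat.mul_le_mul h2
  apply Finset.single_le_sum (f := f) (fun i _ => Nat.zero_le _)
  rw [Finset.mem_range]; omega

/-- **Cayley balls can be arbitrarily far from the root in Schreier graphs of non-confined
subgroups of Thompson's group `F`.** For every finite generating set `S` of `F` and every function
`f : ℕ → ℕ` there is a non-confined subgroup `H` of `F` such that for every `K` and all but finitely
many `n`, the ball of radius `K * f n` about the root of the Schreier graph of `H` contains no copy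
of the Cayley ball of radius `n`. With `f n = n` this is the negation of Q1. -/
theorem result (S : Finset thompsonF) (hS : Subgroup.closure (S : Set thompsonF) = ⊤)
    (f : ℕ → ℕ) :
    ∃ H : Subgroup thompsonF, NonConfined H ∧
      ∀ K : ℕ, ∀ᶠ n : ℕ in Filter.atTop,
        ¬ ∃ v : Vert H, IsCopy (S : Set thompsonF) H n (K * f n) v := by
  classical
  -- choice of the bounds and shifts
  choose τ hτ1 hτ2 using fun J : ℕ => exists_bound S (rad f J)
  choose m hm using fun J : ℕ => exists_shift J (τ J) (hτ1 J)
  set P : Set I := {p | ∃ j i : ℕ, i < j ∧ 0 < d i ∧ p = act (xr ^ (m j)) (d i)} with hP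
  refine ⟨stab P, ?_, ?_⟩
  · -- non-confined
    intro Q hQ
    have hmoved : ∀ p ∈ Q, ∃ i, act p (d i) ≠ d i := by
      intro p hp
      apply exists_moved
      rintro rfl
      exact hQ hp
    choose! ix hix using hmoved
    set J : ℕ := Q.sup ix + 1 with hJ
    refine ⟨(xr ^ (m J))⁻¹, ?_⟩
    intro h hh hmem
    rw [inv_inv] at hmem
    set p := (xr ^ (m J))⁻¹ * h * xr ^ (m J) with hp
    have hi := hix p hmem
    have hlt : ix p < J := by
      have : ix p ≤ Q.sup ix := Finset.le_sup hmem
      omega
    by_cases h0 : 0 < d (ix p)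
    · apply hi
      have hfix : act h (act (xr ^ (m J)) (d (ix p))) = act (xr ^ (m J)) (d (ix p)) :=
        hh _ ⟨J, ix p, hlt, h0, rfl⟩
      rw [hp, act_mul, act_mul, hfix, act_inv_act]
    · have h0' : d (ix p) = 0 := le_antisymm (not_lt.mp h0) (unitInterval.nonneg _)
      apply hi
      rw [h0']
      exact p.1.map_bot
  · intro K
    obtain ⟨La, hLa⟩ := exists_mem_pow (S : Set thompsonF) hS pA
    obtain ⟨Lb, hLb⟩ := exists_mem_pow (S : Set thompsonF) hS pB
    obtain ⟨Lh, hLh⟩ := exists_mem_pow (S : Set thompsonF) hS ph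
    set L := La + Lb with hL
    have hA : pA ∈ (gens (S : Set F)) ^ L := pow_mono _ (by omega) hLa
    have hB : pB ∈ (gens (S : Set F)) ^ L := pow_mono _ (by omega) hLb
    set C := 2 * L + Lh + 1 with hC
    have hev : ∀ᶠ n : ℕ in Filter.atTop, C * (K + 2 * C + 5) ≤ n := Filter.eventually_ge_atTop _
    filter_upwards [hev] with n hn
    rintro ⟨v, hsub, hiso⟩
    set J := n / C with hJ
    have hCpos : 0 < C := by omega
    have hJ1 : K + 2 * C + 5 ≤ J := by
      rw [hJ, Nat.le_div_iff_mul_le hCpos, mul_comm]; exact hn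
    have hJ2 : n < C * (J + 1) := by
      rw [hJ]; exact Nat.lt_mul_div_succ n hCpos
    have hJ3 : J * C ≤ n := Nat.div_mul_le_self n C
    have hn2 : n ≤ J * J := by nlinarith
    -- the vertex
    have hv := hsub (center_mem_ball _ _ v n)
    obtain ⟨g, hg, rfl⟩ := mem_pow_of_mem_ball _ _ 1 _ v hv
    rw [one_mul] at hiso
    have hgR : g ∈ (gens (S : Set F)) ^ (rad f J) :=
      pow_mono _ (le_rad f n K J hn2 (by omega)) hg
    -- points of `P` left of `g half`
    set Q : Finset I := ((Finset.range J) ×ˢ (Finset.range J)).image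
      (fun q : ℕ × ℕ => act (xr ^ (m q.1)) (d q.2)) with hQ
    have hQcard : Q.card ≤ J * J := by
      refine Finset.card_image_le.trans ?_
      rw [Finset.card_product, Finset.card_range]
    have hPQ : ∀ p ∈ P, p ≤ act g half → p ∈ Q := by
      rintro p ⟨j, i, hij, hi0, rfl⟩ hle
      rw [hQ, Finset.mem_image]
      refine ⟨(j, i), ?_, rfl⟩
      have hjJ : j < J := by
        by_contra hcon
        push Not at hcon
        have h1 : τ j < act (xr ^ (m j)) (d i) := hm j i hij hi0
        have h2 : act g half ≤ τ j := hτ2 j g (pow_mono _ (rad_mono f hcon) hgR)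
        exact absurd (h1.trans_le hle) (not_lt.mpr h2)
      rw [Finset.mem_product, Finset.mem_range, Finset.mem_range]
      exact ⟨hjJ, hij.trans hjJ⟩
    -- some ping-pong interval avoids all points
    have hw : ∃ w : Fin J → Bool, ∀ p ∈ P, act (wd (List.ofFn w))⁻¹ (act g⁻¹ p) ∉
        Pool.Agent.LibMPf4dda6al.K := by
      by_contra hcon
      push Not at hcon
      choose q hqP hqK using hcon
      have hqQ : ∀ w, q w ∈ Q := by
        intro w
        apply hPQ _ (hqP w)
        have h1 := wd_K (List.ofFn w) _ (hqK w)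
        rw [act_act_inv] at h1
        have h2 : act g⁻¹ (q w) ≤ half := h1.2
        rw [← act_le g, act_act_inv] at h2
        exact h2
      have hinj : Function.Injective (fun w : Fin J → Bool => (⟨q w, hqQ w⟩ : Q)) := by
        intro w w' hww
        have h1 : q w = q w' := congrArg Subtype.val hww
        have h2 := wd_disjoint (List.ofFn w) (List.ofFn w') (by simp) _ _ (hqK w) (hqK w')
          (by rw [act_act_inv, act_act_inv, h1])
        exact List.ofFn_injective h2
      have hcard := Fintype.card_le_of_injective _ hinj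
      rw [Fintype.card_coe, Fintype.card_fun, Fintype.card_bool, Fintype.card_fin] at hcard
      have := sq_lt_two_pow J (by omega)
      omega
    obtain ⟨w, hw⟩ := hw
    apply bump_ne_one (List.ofFn w)
    apply no_short_loop (S : Set F) (stab P) n g hiso
    · -- length
      have h1 := wd_mem_pow (S : Set F) L hA hB (List.ofFn w)
      rw [List.length_ofFn] at h1
      have h2 : bump (List.ofFn w) ∈ (gens (S : Set F)) ^ (J * L + Lh + J * L) := by
        unfold bump
        rw [pow_add, pow_add]
        exact Set.mul_mem_mul (Set.mul_mem_mul h1 hLh) (inv_mem_pow _ h1)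
      apply pow_mono _ _ h2
      nlinarith
    · intro p hp
      rw [act_mul, act_mul, bump_fix _ _ (hw p hp), act_act_inv]

end Pool.Agent.Results.MP_f4dda6_al.FarCayleyBalls
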